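import Pool.Agent.N783.PQ.Loc
import Pool.Agent.N539.PP.Cls

/-!
# Project PQ, parts SQT and CLS

Twists by squares, and the group of the local classes at an odd prime.
-/

set_option autoImplicit false
set_option linter.all false

open Polynomial IsDedekindDomain NumberField

namespace Pool.Agent.N457.PQ

section
variable {F : Type} [Field F]

theorem scale_comp (f : F[X]) (s : F) :
    (f.scaleRoots s).comp (C s * X) = C (s ^ f.natDegree) * f := by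
  ext i
  rw [comp_C_mul_X_coeff, coeff_scaleRoots, coeff_C_mul]
  by_cases hi : i ≤ f.natDegree
  · have : s ^ (f.natDegree - i) * s ^ i = s ^ f.natDegree := by
      rw [← pow_add, Nat.sub_add_cancel hi]
    rw [mul_assoc, this, mul_comm]
  · rw [coeff_eq_zero_of_natDegree_lt (by omega)]
    simp

theorem deg_comp {s k : F} (hs : s ≠ 0) (hk : k ≠ 0) (u : F[X]) :
    (C k * u.comp (C s * X)).natDegree = u.natDegree := by
  rw [natDegree_C_mul hk, natDegree_comp, natDegree_C_mul_X s hs, mul_one]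

theorem monic_comp {s : F} (hs : s ≠ 0) {u : F[X]} (hu : u.Monic) :
    (C ((s ^ u.natDegree)⁻¹) * u.comp (C s * X)).Monic := by
  rw [Monic, leadingCoeff_mul, leadingCoeff_C, leadingCoeff_comp (by
    rw [natDegree_C_mul_X s hs]; exact one_ne_zero), hu.leadingCoeff, leadingCoeff_C_mul_X, one_mul,
    inv_mul_cancel₀ (pow_ne_zero _ hs)]

/-- the pair after the substitution -/
noncomputable def tr (δ : F) (n : ℕ) (p : F[X] × F[X]) : F[X] × F[X] :=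
  (C (((δ ^ 2) ^ p.1.natDegree)⁻¹) * p.1.comp (C (δ ^ 2) * X),
    C ((δ ^ n)⁻¹) * p.2.comp (C (δ ^ 2) * X))

theorem prod_tr {δ : F} (hδ : δ ≠ 0) (n : ℕ) (l : List (F[X] × F[X])) :
    ∃ c : F, c ≠ 0 ∧ ((l.map (tr δ n)).map fun p : F[X] × F[X] =>
        (-1) ^ p.1.natDegree * p.1).prod = C (c ^ 2) * ((l.map fun p : F[X] × F[X] =>
        (-1) ^ p.1.natDegree * p.1).prod).comp (C (δ ^ 2) * X) := by
  have hs : δ ^ 2 ≠ 0 := pow_ne_zero 2 hδ
  induction l with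
  | nil => exact ⟨1, one_ne_zero, by simp⟩
  | cons p l ih =>
    obtain ⟨c, hc, h⟩ := ih
    refine ⟨(δ ^ p.1.natDegree)⁻¹ * c, mul_ne_zero (inv_ne_zero (pow_ne_zero _ hδ)) hc, ?_⟩
    rw [List.map_cons, List.map_cons, List.prod_cons, h, List.map_cons, List.prod_cons, mul_comp]
    have h1 : (tr δ n p).1.natDegree = p.1.natDegree :=
      deg_comp hs (inv_ne_zero (pow_ne_zero _ hs)) _
    rw [h1]
    have h2 : (tr δ n p).1 = C (((δ ^ 2) ^ p.1.natDegree)⁻¹) * p.1.comp (C (δ ^ 2) * X) := rfl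
    have h3 : (((-1) ^ p.1.natDegree * p.1 : F[X])).comp (C (δ ^ 2) * X) =
        (-1) ^ p.1.natDegree * p.1.comp (C (δ ^ 2) * X) := by
      rw [mul_comp, pow_comp, neg_comp, one_comp]
    have h4 : C (((δ ^ p.1.natDegree)⁻¹ * c) ^ 2) =
        C (((δ ^ 2) ^ p.1.natDegree)⁻¹) * C (c ^ 2) := by
      rw [← C_mul]
      congr 1
      rw [mul_pow, inv_pow, ← pow_mul, ← pow_mul, mul_comm 2]
    rw [h2, h3, h4]
    ring

end

theorem sqt : Pool.Agent.N783.PQ.S_SQT := by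
  intro F _ _ g f h δ hf hdeg hδ ⟨l, s0, hl, hdvd⟩
  have hs : δ ^ 2 ≠ 0 := pow_ne_zero 2 hδ
  set n := 2 * g + 1 with hn
  set φ : F[X] →+* F[X] := compRingHom (C (δ ^ 2) * X) with hφ
  have hφa : ∀ p : F[X], φ p = p.comp (C (δ ^ 2) * X) := fun p => rfl
  have hf2 : φ (f.scaleRoots (δ ^ 2)) = C ((δ ^ 2) ^ n) * f := by
    rw [hφa, scale_comp, hdeg]
  have hsn : (δ ^ 2) ^ n ≠ 0 := pow_ne_zero _ hs
  obtain ⟨c, hc, hprod⟩ := prod_tr hδ n l
  refine ⟨l.map (tr δ n), C c * φ s0, ?_, ?_⟩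
  · intro p hp
    obtain ⟨⟨u, v⟩, hq, rfl⟩ := List.mem_map.1 hp
    obtain ⟨h1, h2, h3⟩ := hl _ hq
    simp only at h1 h2 h3
    have hk : ((δ ^ 2) ^ u.natDegree)⁻¹ ≠ 0 := inv_ne_zero (pow_ne_zero _ hs)
    refine ⟨monic_comp hs h1, ?_, ?_⟩
    · have h4 := h2.map φ
      rw [hf2] at h4
      have h5 : IsCoprime (φ u) f := IsCoprime.of_mul_right_right h4
      show IsCoprime (C (((δ ^ 2) ^ u.natDegree)⁻¹) * u.comp (C (δ ^ 2) * X)) f
      exact (isCoprime_mul_unit_left_left (isUnit_C.2 (isUnit_iff_ne_zero.2 hk)) _ _).2 h5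
    · show C (((δ ^ 2) ^ u.natDegree)⁻¹) * u.comp (C (δ ^ 2) * X) ∣
        (C ((δ ^ n)⁻¹) * v.comp (C (δ ^ 2) * X)) ^ 2 - f
      rw [C_mul_dvd hk]
      have h4 := map_dvd φ h3
      rw [map_sub, map_pow, hf2] at h4
      have h5 : (C ((δ ^ n)⁻¹) * v.comp (C (δ ^ 2) * X)) ^ 2 - f =
          C (((δ ^ 2) ^ n)⁻¹) * ((φ v) ^ 2 - C ((δ ^ 2) ^ n) * f) := by
        have h6 : C (((δ ^ 2) ^ n)⁻¹) * C ((δ ^ 2) ^ n) = (1 : F[X]) := by
          rw [← C_mul, inv_mul_cancel₀ hsn, C_1]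
        have h7 : (C ((δ ^ n)⁻¹) : F[X]) ^ 2 = C (((δ ^ 2) ^ n)⁻¹) := by
          rw [← C_pow]
          congr 1
          rw [inv_pow, ← pow_mul, ← pow_mul, mul_comm]
        rw [mul_sub, ← mul_assoc, h6, one_mul, mul_pow, h7, hφa]
      rw [h5]
      exact Dvd.dvd.mul_left h4 _
  · rw [hprod]
    have h4 := map_dvd φ hdvd
    rw [hf2, map_sub, map_mul, map_pow φ s0] at h4
    set G : F[X] := (l.map fun p : F[X] × F[X] => (-1) ^ p.1.natDegree * p.1).prod with hG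
    have h5 : f ∣ φ h * φ G - φ s0 ^ 2 := (Dvd.intro_left _ rfl).trans h4
    have h6 : h.comp (C (δ ^ 2) * X) * (C (c ^ 2) * G.comp (C (δ ^ 2) * X)) -
        (C c * φ s0) ^ 2 = C (c ^ 2) * (φ h * φ G - φ s0 ^ 2) := by
      rw [← hφa h, ← hφa G, C_pow]
      ring
    rw [h6]
    exact Dvd.dvd.mul_left h5 _

theorem cls : Pool.Agent.N783.PQ.S_CLS := by
  intro L _ _ p 𝔓 ϖ hp hp2 hO hϖ eϖ x y hx hy
  haveI : Finite (𝓞 L ⧸ 𝔓.asIdeal) := Ideal.finiteQuotientOfFreeOfNeBot 𝔓.asIdeal 𝔓.ne_bot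
  exact ⟨Pool.Agent.N539.PP.ev_mul 𝔓 hx hy,
    Pool.Agent.N539.PP.u0_mul_iff 𝔓 hx hy hϖ eϖ⟩

end Pool.Agent.N457.PQ
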